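import Pool.Agent.H83.HK.UL.RL

set_option autoImplicit false
set_option linter.dupNamespace false

/-!
# Dominance: a root with large product with a simple root

If `γ ≠ α_j` is a positive root, `⟨γ, α_j⟩ ≥ 2` and `w⁻¹ γ < 0`, then `w⁻¹ α_j < 0`.
-/

namespace Pool.Agent.H83.HK

open Pool.Agent.H3.HK
open scoped Classical

variable {V : Type} [Fintype V] {M : CoxeterMatrix V}

theorem pair_ext {b c : V → ℤ} (h : ∀ x, pair x b = pair x c) : b = c := by
  funext i
  have := h (om i)
  rwa [om_pair, om_pair] at this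

/-- the action of `g⁻¹` on the root lattice -/
theorem exists_adj (hM : SL M) (g : M.Group) : ∃ T : (V → ℤ) →ₗ[ℤ] (V → ℤ),
    (∀ y b, pair (linW hM g y) b = pair y (T b)) ∧
      ∀ b c, pair (ca M (T b)) (T c) = pair (ca M b) c := by
  refine W_induction_right (p := fun g => ∃ T : (V → ℤ) →ₗ[ℤ] (V → ℤ),
    (∀ y b, pair (linW hM g y) b = pair y (T b)) ∧
      ∀ b c, pair (ca M (T b)) (T c) = pair (ca M b) c) g ?_ ?_
  · refine ⟨LinearMap.id, fun y b => ?_, fun b c => rfl⟩
    rw [map_one]; rfl
  · rintro w k ⟨T, h1, h2⟩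
    let S : (V → ℤ) →ₗ[ℤ] (V → ℤ) :=
      { toFun := rR M k
        map_add' := fun b c => by
          rw [rR_eq, rR_eq, rR_eq, ca_add, Pi.add_apply, add_smul]; abel
        map_smul' := fun a b => by
          rw [rR_eq, rR_eq, ca_smul, Pi.smul_apply, smul_eq_mul, mul_smul, RingHom.id_apply,
            smul_sub] }
    refine ⟨S ∘ₗ T, fun y b => ?_, fun b c => ?_⟩
    · rw [linW_mul, h1, linW_simple]
      exact pair_rfl' k y (T b)
    · exact (norm_rR k (T b) (T c)).trans (h2 b c)

theorem root_mul_of (hM : SL M) {g : M.Group} {T : (V → ℤ) →ₗ[ℤ] (V → ℤ)}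
    (hT : ∀ y b, pair (linW hM g y) b = pair y (T b)) (u : M.Group) (i : V) :
    root hM (u * g) i = T (root hM u i) := by
  refine pair_ext fun x => ?_
  rw [pair_root, linW_mul, ← pair_root, hT]

/-- right multiplication by a reflection -/
theorem root_mul_refl (hM : SL M) (X v : M.Group) (i i' : V) :
    root hM (X * (v⁻¹ * M.simple i * v)) i' = root hM X i' -
      pair (ca M (root hM X i')) (root hM v i) • root hM v i := by
  obtain ⟨T, h1, h2⟩ := exists_adj hM v
  have e1 : root hM X i' = T (root hM (X * v⁻¹) i') := by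
    rw [← root_mul_of hM h1, inv_mul_cancel_right]
  have e2 : root hM v i = T (om i) := by
    rw [← root_one hM i, ← root_mul_of hM h1, one_mul]
  have e3 : X * (v⁻¹ * M.simple i * v) = (X * v⁻¹ * M.simple i) * v := by
    simp only [mul_assoc]
  rw [e3, root_mul_of hM h1, root_mul_simple, rR_eq, map_sub, map_smul, ← e1, ← e2]
  congr 2
  rw [e1, e2, h2, pair_om]

/-- a nonnegative root different from `α_j` has a positive coefficient elsewhere -/
theorem exists_pos_ne (hM : SL M) {u : M.Group} {i j : V} (hpos : ∀ k, 0 ≤ root hM u i k)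
    (hne : root hM u i ≠ om j) : ∃ m, m ≠ j ∧ 0 < root hM u i m := by
  by_contra hcon
  push Not at hcon
  have h0 : ∀ m, m ≠ j → root hM u i m = 0 := fun m hm =>
    le_antisymm (hcon m hm) (hpos m)
  have e : root hM u i = root hM u i j • om j := by
    funext k
    rw [Pi.smul_apply, smul_eq_mul]
    by_cases hk : k = j
    · subst hk; rw [om_self, mul_one]
    · rw [h0 k hk, om_of_ne hk, mul_zero]
  have hn := root_norm hM u i
  rw [e, ca_smul, smul_pair, pair_smul, pair_om, ca_om_self] at hn
  have hc : root hM u i j = 1 := by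
    have h1 := hpos j
    nlinarith
  apply hne
  rw [e, hc, one_smul]

/-- the positive roots made negative by `w⁻¹` -/
def Inv (hM : SL M) (w : M.Group) : Set (V → ℤ) :=
  {b | (∃ u i, b = root hM u i) ∧ (∀ k, 0 ≤ b k) ∧ ∀ k, pair (linW hM w (om k)) b ≤ 0}

theorem inv_finite (hM : SL M) (w : M.Group) : (Inv hM w).Finite := by
  refine W_induction (p := fun w => (Inv hM w).Finite) w ?_ ?_
  · refine (Set.finite_singleton (0 : V → ℤ)).subset ?_
    rintro b ⟨-, h1, h2⟩
    have h3 : ∀ k, b k = 0 := fun k => by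
      have := h2 k
      rw [map_one] at this
      change pair (om k) b ≤ 0 at this
      rw [om_pair] at this
      exact le_antisymm this (h1 k)
    exact funext h3
  · intro w k ih
    refine (ih.image (rR M k) |>.insert (om k)).subset ?_
    rintro b ⟨⟨u, i, rfl⟩, h1, h2⟩
    by_cases hb : root hM u i = om k
    · exact Or.inl hb
    · right
      refine ⟨rR M k (root hM u i), ⟨⟨u * M.simple k, i, (root_mul_simple hM u i k).symm⟩, ?_, ?_⟩,
        rR_rR k _⟩
      · obtain ⟨m, hm, hpos⟩ := exists_pos_ne hM h1 hb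
        have e : rR M k (root hM u i) m = root hM u i m := by
          rw [rR, om_of_ne hm, mul_zero, sub_zero]
        rw [← root_mul_simple] at e ⊢
        rcases root_sign hM (u * M.simple k) i with h | h
        · exact h.1
        · exact absurd (h.1 m) (by rw [e]; exact not_le.2 hpos)
      · intro m
        have := h2 m
        rwa [linW_mul_simple, pair_rfl'] at this

/-- the roots `(s_γ s_j)^n γ` -/
theorem exists_coef (hM : SL M) (v : M.Group) (i j : V) (h2 : 2 ≤ ca M (root hM v i) j) (n : ℕ) :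
    ∃ a b : ℤ, (n : ℤ) < a ∧ 0 ≤ b ∧ b < a ∧
      root hM (v * (M.simple j * (v⁻¹ * M.simple i * v)) ^ n) i = a • root hM v i - b • om j := by
  induction n with
  | zero =>
    refine ⟨1, 0, by norm_num, le_refl _, by norm_num, ?_⟩
    rw [pow_zero, mul_one, one_smul, zero_smul, sub_zero]
  | succ n ih =>
    obtain ⟨a, b, h3, h4, h5, h6⟩ := ih
    set k := ca M (root hM v i) j with hk
    have hn : (0 : ℤ) ≤ n := Int.natCast_nonneg n
    have e1 : v * (M.simple j * (v⁻¹ * M.simple i * v)) ^ (n + 1) =
        (v * (M.simple j * (v⁻¹ * M.simple i * v)) ^ n * M.simple j) *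
          (v⁻¹ * M.simple i * v) := by
      rw [pow_succ]
      simp only [mul_assoc]
    have e2 : root hM (v * (M.simple j * (v⁻¹ * M.simple i * v)) ^ n * M.simple j) i =
        a • root hM v i - (a * k - b) • om j := by
      rw [root_mul_simple, h6, rR_eq, ca_sub, ca_smul, ca_smul]
      rw [Pi.sub_apply, Pi.smul_apply, Pi.smul_apply, ca_om_self, ← hk, smul_eq_mul, smul_eq_mul]
      module
    have e3 : pair (ca M (om j)) (root hM v i) = k := by
      rw [pair_symm, pair_om]
    have e4 : pair (ca M (a • root hM v i - (a * k - b) • om j)) (root hM v i) =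
        2 * a - (a * k - b) * k := by
      rw [ca_sub, ca_smul, ca_smul, sub_eq_add_neg, add_pair, neg_pair, smul_pair, smul_pair,
        root_norm, e3]
      ring
    have h7 : a * 2 ≤ a * k := mul_le_mul_of_nonneg_left h2 (by omega)
    have h8 : 2 * (a * k - b) ≤ k * (a * k - b) := mul_le_mul_of_nonneg_right h2 (by omega)
    refine ⟨k * (a * k - b) - a, a * k - b, ?_, ?_, ?_, ?_⟩
    · push_cast
      omega
    · omega
    · omega
    · rw [e1, root_mul_refl, e2, e4]
      module

theorem dom (hM : SL M) (w v : M.Group) (i j : V) (hpos : ∀ k, 0 ≤ root hM v i k)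
    (hne : root hM v i ≠ om j) (h2 : 2 ≤ ca M (root hM v i) j)
    (hbad : ∀ k, pair (linW hM w (om k)) (root hM v i) ≤ 0) :
    ∀ k, linW hM w (om k) j ≤ 0 := by
  rcases root_sign hM w j with hs | hs
  · exfalso
    obtain ⟨m, hm, hm0⟩ := exists_pos_ne hM hpos hne
    obtain ⟨B, hB⟩ : ∃ B : ℕ, ∀ b ∈ Inv hM w, b m ≤ B := by
      obtain ⟨B, hB⟩ := ((inv_finite hM w).image fun b => b m).bddAbove
      exact ⟨B.toNat, fun b hb => (hB ⟨b, hb, rfl⟩).trans (Int.self_le_toNat B)⟩
    obtain ⟨a, b, h3, h4, h5, h6⟩ := exists_coef hM v i j h2 B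
    have hn : (0 : ℤ) ≤ B := Int.natCast_nonneg B
    set u := v * (M.simple j * (v⁻¹ * M.simple i * v)) ^ B with hu
    have e1 : root hM u i m = a * root hM v i m := by
      rw [h6, Pi.sub_apply, Pi.smul_apply, Pi.smul_apply, om_of_ne hm, smul_eq_mul, smul_zero,
        sub_zero]
    have e2 : (B : ℤ) < root hM u i m := by
      rw [e1]; nlinarith
    have hmem : root hM u i ∈ Inv hM w := by
      refine ⟨⟨u, i, rfl⟩, ?_, fun k => ?_⟩
      · rcases root_sign hM u i with h | h
        · exact h.1
        · exact absurd (h.1 m) (not_le.2 (hn.trans_lt e2))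
      · rw [h6, pair_sub, pair_smul, pair_smul, pair_om]
        have h7 := hbad k
        have h8 : 0 ≤ linW hM w (om k) j := hs.1 k
        nlinarith
    exact absurd (hB _ hmem) (not_le.2 e2)
  · exact hs.1

end Pool.Agent.H83.HK
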