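import Pool.Agent.H83.HK.UL.SE
import Pool.Agent.H83.HK.UL.DM

set_option autoImplicit false
set_option linter.dupNamespace false

/-!
# The automaton of small roots
-/

namespace Pool.Agent.H83.HK

open Pool.Agent.H3.HK
open scoped Classical

variable {V : Type} [Fintype V] {M : CoxeterMatrix V}

/-- the small roots which are made negative by the inverse of `y` -/
def AA (y : HK (adj M)) : Set (V → ℤ) := {b | Sm M b ∧ ∀ i, pair (cl y i) b ≤ 0}

theorem AA_om (hM : SL M) (y : HK (adj M)) (j : V) : om j ∈ AA y ↔ NN' y j := by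
  constructor
  · rintro ⟨-, h⟩
    rcases PP_or_NN hM y j with h1 | h1
    · obtain ⟨i, hi⟩ := h1.2
      have := h i
      rw [pair_om] at this
      omega
    · exact h1
  · intro h
    refine ⟨Sm.simple j, fun i => ?_⟩
    rw [pair_om]
    exact h.1 i

/-- the columns of an element of the monoid are the columns of an element of the group -/
theorem exists_linW (hM : SL M) (y : HK (adj M)) :
    ∃ w : M.Group, ∀ i, cl y i = linW hM w (om i) := by
  obtain ⟨l, hr, rfl⟩ := exists_red hM y
  exact ⟨(l.map M.simple).prod, fun i => by rw [cl_wd hr, col_linW hM]⟩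

/-- the reflection of a small root which is bad for `y` is small, if `y` has no left descent `j` -/
theorem Sm_rR (hM : SL M) {y : HK (adj M)} {j : V} (hp : PP y j) {b : V → ℤ} (hb : Sm M b)
    (hne : b ≠ om j) (h : ∀ i, pair (cl y i) (rR M j b) ≤ 0) : Sm M (rR M j b) := by
  rcases Sm_le hb j with h1 | ⟨h1, h2⟩
  · exact absurd h1 hne
  rcases (by omega : ca M b j = 1 ∨ ca M b j = 0 ∨ ca M b j = -1 ∨ ca M b j ≤ -2) with
    h3 | h3 | h3 | h3
  · rw [rR_eq, h3, one_smul]
    exact h2 h3
  · rw [rR_eq, h3, zero_smul, sub_zero]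
    exact hb
  · have e : rR M j b = b + om j := by
      rw [rR_eq, h3, neg_smul, one_smul, sub_neg_eq_add]
    rw [e]
    exact Sm.step b j hb h3
  · exfalso
    obtain ⟨w, hw⟩ := exists_linW hM y
    obtain ⟨v, i, hv⟩ := Sm_root hM hb
    have e : rR M j b = root hM (v * M.simple j) i := by rw [root_mul_simple, ← hv]
    have hca : ca M (rR M j b) j = - ca M b j := by rw [ca_rR, rfl_self]
    have key := dom hM w (v * M.simple j) i j (by
        rw [← e]
        intro k
        rw [rR_eq, Pi.sub_apply, Pi.smul_apply, smul_eq_mul]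
        have h4 := Sm_nonneg hb k
        have h5 : 0 ≤ om j k := by rw [om]; split_ifs <;> norm_num
        nlinarith) (by
        rw [← e]
        intro h4
        have h5 := congrArg (rR M j) h4
        rw [rR_rR, rR_om] at h5
        have h6 := Sm_nonneg hb j
        rw [h5, Pi.neg_apply, om_self] at h6
        omega) (by
        rw [← e, hca]
        omega) (by
        rw [← e]
        intro k
        rw [← hw]
        exact h k)
    obtain ⟨k, hk⟩ := hp.2
    have := key k
    rw [← hw] at this
    omega

theorem AA_PP (hM : SL M) {y : HK (adj M)} {j : V} (hp : PP y j) :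
    AA (gen (adj M) j * y) = {b | Sm M b ∧ (b = om j ∨ rR M j b ∈ AA y)} := by
  ext b
  constructor
  · rintro ⟨hb, h⟩
    refine ⟨hb, ?_⟩
    by_cases hne : b = om j
    · exact Or.inl hne
    · right
      have h' : ∀ i, pair (cl y i) (rR M j b) ≤ 0 := by
        intro i
        have := h i
        rwa [PP_cl hp, pair_rfl'] at this
      exact ⟨Sm_rR hM hp hb hne h', h'⟩
  · rintro ⟨hb, h | ⟨-, h⟩⟩
    · refine ⟨hb, fun i => ?_⟩
      subst h
      rw [pair_om, PP_cl hp, rfl_self]
      have := hp.1 i
      omega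
    · refine ⟨hb, fun i => ?_⟩
      rw [PP_cl hp, pair_rfl']
      exact h i

theorem AA_step (hM : SL M) {y y' : HK (adj M)} (j : V) (h : AA y = AA y') :
    AA (gen (adj M) j * y) = AA (gen (adj M) j * y') := by
  have h1 : NN' y j ↔ NN' y' j := by rw [← AA_om hM, ← AA_om hM, h]
  rcases PP_or_NN hM y j with hp | hn
  · have hp' : PP y' j := by
      rcases PP_or_NN hM y' j with h2 | h2
      · exact h2
      · exact (not_PP_NN hp (h1.2 h2)).elim
    rw [AA_PP hM hp, AA_PP hM hp', h]
  · rw [NN_fix hM hn, NN_fix hM (h1.1 hn), h]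

end Pool.Agent.H83.HK
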