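import Pool.Agent.H83.HK.UL.RL

set_option autoImplicit false
set_option linter.dupNamespace false

/-!
# The representation given by a finite automaton

`π : HK → S` with `S` finite such that `π y` determines the left descents of `y` and `π (e_j y)`.
Then `HK` acts faithfully on `ℤ^S ⊗ ℤ^V` by `e_j (σ ⊗ x) = σ ⊗ x` if `j` is a descent of `σ` and
`(e_j σ) ⊗ s_j x` otherwise.
-/

namespace Pool.Agent.H83.HK

open Pool.Agent.H3.HK
open scoped Classical

variable {V : Type} [Fintype V] {M : CoxeterMatrix V}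

/-- the matrix of the simple reflection -/
noncomputable def sMat (M : CoxeterMatrix V) (k : V) : Matrix V V ℤ :=
  Matrix.of fun m i => rfl' (gr M) k (om i) m

/-- the matrix with the columns `cl g i` -/
noncomputable def cMat (g : HK (adj M)) : Matrix V V ℤ := Matrix.of fun m i => cl g i m

theorem om_comm (i m : V) : (om i : V → ℤ) m = om m i := by
  simp only [om, eq_comm]

theorem rfl_expand (k : V) (x : V → ℤ) (m : V) :
    ∑ i, rfl' (gr M) k (om i) m * x i = rfl' (gr M) k x m := by
  have h : ∀ i, rfl' (gr M) k (om i) m * x i =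
      x i * om m i - ca M (om k) m * (x i * om k i) := by
    intro i
    rw [rfl_eq, Pi.sub_apply, Pi.smul_apply, smul_eq_mul, om_comm i m, om_comm i k]
    ring
  rw [Finset.sum_congr rfl fun i _ => h i, Finset.sum_sub_distrib, ← Finset.mul_sum, sum_om,
    sum_om, rfl_eq, Pi.sub_apply, Pi.smul_apply, smul_eq_mul]
  ring

theorem sMat_mul (k : V) (X : Matrix V V ℤ) (m i : V) :
    (sMat M k * X) m i = rfl' (gr M) k (fun l => X l i) m := by
  rw [Matrix.mul_apply, ← rfl_expand]
  rfl

theorem sMat_sq (k : V) : sMat M k * sMat M k = 1 := by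
  ext m i
  rw [sMat_mul]
  have : (fun l => sMat M k l i) = rfl' (gr M) k (om i) := rfl
  rw [this, rfl_rfl, Matrix.one_apply]
  rfl

theorem cMat_one : cMat (1 : HK (adj M)) = 1 := by
  ext m i
  rw [cMat, Matrix.of_apply, cl_one, Matrix.one_apply]
  rfl

theorem cMat_gen {g : HK (adj M)} {k : V} (h : PP g k) :
    cMat (gen (adj M) k * g) = sMat M k * cMat g := by
  ext m i
  rw [sMat_mul, cMat, Matrix.of_apply, PP_cl h]
  rfl

theorem isUnit_cMat (hM : SL M) (g : HK (adj M)) : IsUnit (cMat g) := by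
  induction g using red_induction hM with
  | h1 => rw [cMat_one]; exact isUnit_one
  | h2 g k hp ih =>
    rw [cMat_gen hp]
    exact (IsUnit.of_mul_eq_one _ (sMat_sq k)).mul ih

/-- the cocycle -/
noncomputable def ccy (g y : HK (adj M)) : Matrix V V ℤ := cMat (g * y) * (cMat y)⁻¹

theorem ccy_mul (hM : SL M) (g h y : HK (adj M)) :
    ccy (g * h) y = ccy g (h * y) * ccy h y := by
  have h1 : IsUnit (cMat (h * y)).det := (Matrix.isUnit_iff_isUnit_det _).1 (isUnit_cMat hM _)
  rw [ccy, ccy, ccy, ← Matrix.mul_assoc, Matrix.mul_assoc (cMat (g * (h * y))),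
    Matrix.nonsing_inv_mul _ h1, Matrix.mul_one, mul_assoc g h y]

theorem ccy_one_right (g : HK (adj M)) : ccy g 1 = cMat g := by
  rw [ccy, cMat_one, mul_one, inv_one, Matrix.mul_one]

section automaton

variable {S : Type} {π : HK (adj M) → S}

theorem pi_congr (h2 : ∀ y y' j, π y = π y' → π (gen (adj M) j * y) = π (gen (adj M) j * y'))
    (g : HK (adj M)) {y y' : HK (adj M)} (h : π y = π y') : π (g * y) = π (g * y') := by
  obtain ⟨l, rfl⟩ := exists_wd g
  induction l with
  | nil => simpa using h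
  | cons k l ih =>
    rw [wd_cons, mul_assoc, mul_assoc]
    exact h2 _ _ k ih

theorem ccy_gen (hM : SL M) (h1 : ∀ y y' j, π y = π y' → (NN' y j ↔ NN' y' j)) (k : V)
    {y y' : HK (adj M)} (h : π y = π y') : ccy (gen (adj M) k) y = ccy (gen (adj M) k) y' := by
  have key : ∀ z : HK (adj M), (NN' z k → ccy (gen (adj M) k) z = 1) ∧
      (PP z k → ccy (gen (adj M) k) z = sMat M k) := by
    intro z
    have hz : IsUnit (cMat z).det := (Matrix.isUnit_iff_isUnit_det _).1 (isUnit_cMat hM _)
    refine ⟨fun hz' => ?_, fun hz' => ?_⟩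
    · rw [ccy, NN_fix hM hz', Matrix.mul_nonsing_inv _ hz]
    · rw [ccy, cMat_gen hz', Matrix.mul_assoc, Matrix.mul_nonsing_inv _ hz, Matrix.mul_one]
  rcases PP_or_NN hM y k with hy | hy
  · have hy' : PP y' k := by
      rcases PP_or_NN hM y' k with h3 | h3
      · exact h3
      · exact (not_PP_NN hy ((h1 y y' k h).2 h3)).elim
    rw [(key y).2 hy, (key y').2 hy']
  · rw [(key y).1 hy, (key y').1 ((h1 y y' k h).1 hy)]

theorem ccy_congr (hM : SL M) (h1 : ∀ y y' j, π y = π y' → (NN' y j ↔ NN' y' j))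
    (h2 : ∀ y y' j, π y = π y' → π (gen (adj M) j * y) = π (gen (adj M) j * y'))
    (g : HK (adj M)) {y y' : HK (adj M)} (h : π y = π y') : ccy g y = ccy g y' := by
  obtain ⟨l, rfl⟩ := exists_wd g
  induction l with
  | nil =>
    have hy : IsUnit (cMat y).det := (Matrix.isUnit_iff_isUnit_det _).1 (isUnit_cMat hM _)
    have hy' : IsUnit (cMat y').det := (Matrix.isUnit_iff_isUnit_det _).1 (isUnit_cMat hM _)
    rw [wd_nil, ccy, ccy, one_mul, one_mul, Matrix.mul_nonsing_inv _ hy,
      Matrix.mul_nonsing_inv _ hy']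
  | cons k l ih =>
    rw [wd_cons, ccy_mul hM, ccy_mul hM, ih, ccy_gen hM h1 k (pi_congr h2 (wd (adj M) l) h)]

/-- a representative -/
noncomputable def rp (π : HK (adj M) → S) (s : Set.range π) : HK (adj M) := s.2.choose

theorem pi_rp (s : Set.range π) : π (rp π s) = s.1 := s.2.choose_spec

/-- the matrix of an element -/
noncomputable def aMat (π : HK (adj M) → S) (g : HK (adj M)) :
    Matrix (Set.range π × V) (Set.range π × V) ℤ :=
  Matrix.of fun c b => if c.1.1 = π (g * rp π b.1) then ccy g (rp π b.1) c.2 b.2 else 0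

theorem aMat_mul (hM : SL M) (h1 : ∀ y y' j, π y = π y' → (NN' y j ↔ NN' y' j))
    (h2 : ∀ y y' j, π y = π y' → π (gen (adj M) j * y) = π (gen (adj M) j * y'))
    [Fintype (Set.range π)] (g h : HK (adj M)) :
    aMat π (g * h) = aMat π g * aMat π h := by
  ext c b
  rw [Matrix.mul_apply, Fintype.sum_prod_type]
  let s : Set.range π := ⟨π (h * rp π b.1), _, rfl⟩
  have hs : π (rp π s) = π (h * rp π b.1) := pi_rp s
  rw [Finset.sum_eq_single s]
  · have e1 : ∀ m : V, aMat π h (s, m) b = ccy h (rp π b.1) m b.2 := fun m => if_pos rfl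
    have e2 : π (g * rp π s) = π (g * h * rp π b.1) := by
      rw [mul_assoc]; exact pi_congr h2 g hs
    have e3 : ccy g (rp π s) = ccy g (h * rp π b.1) := ccy_congr hM h1 h2 g hs
    simp only [e1]
    by_cases hc : c.1.1 = π (g * h * rp π b.1)
    · have e4 : ∀ m : V, aMat π g c (s, m) = ccy g (h * rp π b.1) c.2 m := fun m => by
        rw [← e3]; exact if_pos (by rw [e2]; exact hc)
      simp only [e4]
      rw [← Matrix.mul_apply, ← ccy_mul hM]
      exact if_pos hc
    · have e4 : ∀ m : V, aMat π g c (s, m) = 0 := fun m => if_neg (by rw [e2]; exact hc)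
      simp only [e4, zero_mul, Finset.sum_const_zero]
      exact if_neg hc
  · intro s' _ hs'
    refine Finset.sum_eq_zero fun m _ => ?_
    have : aMat π h (s', m) b = 0 := if_neg fun t => hs' (Subtype.ext t)
    rw [this, mul_zero]
  · intro hh; exact absurd (Finset.mem_univ s) hh

theorem aMat_injective (hM : SL M) (h1 : ∀ y y' j, π y = π y' → (NN' y j ↔ NN' y' j))
    (h2 : ∀ y y' j, π y = π y' → π (gen (adj M) j * y) = π (gen (adj M) j * y'))
    [Fintype (Set.range π)] : Function.Injective (aMat π) := by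
  intro g h e
  let s : Set.range π := ⟨π 1, _, rfl⟩
  have hs : π (rp π s) = π 1 := pi_rp s
  have key : ∀ (g : HK (adj M)) (k i : V), ∑ t, aMat π g (t, k) (s, i) = cl g i k := by
    intro g k i
    rw [Finset.sum_eq_single (⟨π (g * rp π s), _, rfl⟩ : Set.range π)]
    · have e1 : aMat π g (⟨π (g * rp π s), _, rfl⟩, k) (s, i) = ccy g (rp π s) k i := if_pos rfl
      rw [e1, ccy_congr hM h1 h2 g hs, ccy_one_right]
      rfl
    · intro t _ ht
      exact if_neg fun t' => ht (Subtype.ext t')
    · intro hh; exact absurd (Finset.mem_univ _) hh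
  refine ext_cl hM fun i => ?_
  funext k
  rw [← key g k i, ← key h k i, e]

end automaton

theorem exists_rep_of_automaton (hM : SL M) {S : Type} [Finite S] (π : HK (adj M) → S)
    (h1 : ∀ y y' j, π y = π y' → (NN' y j ↔ NN' y' j))
    (h2 : ∀ y y' j, π y = π y' → π (gen (adj M) j * y) = π (gen (adj M) j * y')) :
    ∃ n : ℕ, ∃ φ : HK (adj M) →ₙ* Matrix (Fin n) (Fin n) ℤ, Function.Injective φ := by
  have : Fintype (Set.range π) := Fintype.ofFinite _
  let e := Fintype.equivFin (Set.range π × V)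
  refine ⟨_, ⟨fun g => Matrix.reindex e e (aMat π g), fun g h => ?_⟩, fun g h eq => ?_⟩
  · rw [aMat_mul hM h1 h2]
    simp only [Matrix.reindex_apply]
    rw [Matrix.submatrix_mul_equiv]
  · exact aMat_injective hM h1 h2 ((Matrix.reindex e e).injective eq)

end Pool.Agent.H83.HK
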