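import Pool.Agent.H83.HK.UL.AU
import Pool.Agent.H83.HK.UL.RP
import Pool.Agent.H83.HK.Val

set_option autoImplicit false
set_option linter.dupNamespace false

/-!
# Unoriented graphs are linear
-/

namespace Pool.Agent.H83.HK

open Pool.Agent.H3.HK
open scoped Classical

variable {V : Type} {M : CoxeterMatrix V}

theorem linear_of_SL [Fintype V] (hM : SL M) :
    ∃ n : ℕ, ∃ φ : HK (adj M) →ₙ* Matrix (Fin n) (Fin n) ℤ, Function.Injective φ := by
  have hS : Finite {b : V → ℤ | Sm M b} := (Sm_finite M).to_subtype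
  have key : ∀ y y' : HK (adj M),
      ({b | b.1 ∈ AA y} : Set {b : V → ℤ | Sm M b}) = {b | b.1 ∈ AA y'} → AA y = AA y' := by
    intro y y' h
    ext b
    constructor
    · intro hb
      have : (⟨b, hb.1⟩ : {b : V → ℤ | Sm M b}) ∈
          ({b | b.1 ∈ AA y} : Set {b : V → ℤ | Sm M b}) := hb
      rw [h] at this
      exact this
    · intro hb
      have : (⟨b, hb.1⟩ : {b : V → ℤ | Sm M b}) ∈
          ({b | b.1 ∈ AA y'} : Set {b : V → ℤ | Sm M b}) := hb
      rw [← h] at this
      exact this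
  refine exists_rep_of_automaton hM
    (fun y => ({b | b.1 ∈ AA y} : Set {b : V → ℤ | Sm M b})) ?_ ?_
  · intro y y' j h
    rw [← AA_om hM y j, ← AA_om hM y' j, key y y' h]
  · intro y y' j h
    have e := AA_step hM j (key y y' h)
    change ({b | b.1 ∈ AA (gen (adj M) j * y)} : Set {b : V → ℤ | Sm M b}) =
      {b | b.1 ∈ AA (gen (adj M) j * y')}
    rw [e]

/-- the Coxeter matrix of a graph -/
noncomputable def cox (G : SimpleGraph V) : CoxeterMatrix V where
  M := Matrix.of fun i j => if i = j then 1 else if G.Adj i j then 3 else 2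
  isSymm := by
    ext i j
    by_cases h : i = j
    · subst h; simp
    · by_cases h' : G.Adj i j
      · simp [h, h', h'.symm, Ne.symm h]
      · have h2 : ¬ G.Adj j i := fun t => h' t.symm
        simp [h, h', h2, Ne.symm h]
  diagonal i := by simp
  off_diagonal i j h := by
    by_cases h' : G.Adj i j
    · simp [h, h']
    · simp [h, h']

theorem cox_ne (G : SimpleGraph V) {i j : V} (h : i ≠ j) :
    cox G i j = if G.Adj i j then 3 else 2 := by
  change (if i = j then 1 else if G.Adj i j then 3 else 2) = _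
  rw [if_neg h]

theorem SL_cox (G : SimpleGraph V) : SL (cox G) := by
  intro i j h
  rw [cox_ne G h]
  by_cases h' : G.Adj i j
  · simp [h']
  · simp [h']

theorem adj_cox (G : SimpleGraph V) : adj (cox G) = G.Adj := by
  funext i j
  rw [adj]
  by_cases h : i = j
  · subst h
    rw [(cox G).diagonal]
    simp
  · rw [cox_ne G h]
    by_cases h' : G.Adj i j
    · simp [h']
    · simp [h']

theorem linear_of_graph [Finite V] (G : SimpleGraph V) :
    ∃ n : ℕ, ∃ φ : HK G.Adj →ₙ* Matrix (Fin n) (Fin n) ℤ, Function.Injective φ := by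
  have : Fintype V := Fintype.ofFinite V
  have h := linear_of_SL (SL_cox G)
  rw [adj_cox] at h
  exact h

theorem deg_lt_top {R : Type} [Ring R] {T : V → V → Prop} {n : ℕ}
    (φ : HK T →ₙ* Matrix (Fin n) (Fin n) R) (hφ : Function.Injective φ) : deg R T < ⊤ :=
  (sInf_le ⟨n, rfl, φ, hφ⟩ : deg R T ≤ (n : ℕ∞)).trans_lt (ENat.natCast_lt_top n)

theorem graph_deg [Finite V] (G : SimpleGraph V) : deg ℤ G.Adj < ⊤ ∧ deg ℂ G.Adj < ⊤ := by
  obtain ⟨n, φ, hφ⟩ := linear_of_graph G
  exact ⟨deg_lt_top φ hφ, deg_lt_top (toC' φ) (toC'_injective hφ)⟩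

end Pool.Agent.H83.HK
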