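import Pool.Agent.H83.HK.UL.Fin
import Pool.Agent.H68.HKO.Main

set_option autoImplicit false
set_option linter.dupNamespace false

/-!
# The monoid of a disjoint union of digraphs
-/

namespace Pool.Agent.H83.HK

open Pool.Agent.H3.HK
open scoped Classical

variable {V : Type}

/-- the full subgraph on a set of vertices -/
def sub (T : V → V → Prop) (U : Set V) (a b : U) : Prop := T a b

/-- the letter `i` if it belongs to `U`, and the unit otherwise -/
noncomputable def dl (T : V → V → Prop) (U : Set V) (i : V) : HK (sub T U) :=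
  if h : i ∈ U then gen (sub T U) ⟨i, h⟩ else 1

theorem dl_pos {T : V → V → Prop} {U : Set V} {i : V} (h : i ∈ U) :
    dl T U i = gen (sub T U) ⟨i, h⟩ := dif_pos h

theorem dl_neg {T : V → V → Prop} {U : Set V} {i : V} (h : i ∉ U) : dl T U i = 1 := dif_neg h

/-- the homomorphism which deletes the letters outside of `U` -/
noncomputable def del (T : V → V → Prop) (U : Set V) : HK T →* HK (sub T U) :=
  PresentedMonoid.lift (rels := Rel T) (dl T U) (by
    intro a b hab
    cases hab with
    | idem i =>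
      simp only [map_mul, FreeMonoid.lift_eval_of]
      by_cases h : i ∈ U
      · rw [dl_pos h]; exact gen_idem _
      · rw [dl_neg h]; rfl
    | comm i j hn h1 h2 =>
      simp only [map_mul, FreeMonoid.lift_eval_of]
      by_cases h : i ∈ U
      · by_cases h' : j ∈ U
        · rw [dl_pos h, dl_pos h']
          exact gen_comm (fun t => hn (congrArg Subtype.val t)) h1 h2
        · rw [dl_neg h', mul_one, one_mul]
      · rw [dl_neg h, mul_one, one_mul]
    | braid i j hn h1 h2 =>
      simp only [map_mul, FreeMonoid.lift_eval_of]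
      by_cases h : i ∈ U
      · by_cases h' : j ∈ U
        · rw [dl_pos h, dl_pos h']
          exact rel_eq (Rel.braid _ _ (fun t => hn (congrArg Subtype.val t)) h1 h2)
        · rw [dl_neg h', dl_pos h, mul_one, one_mul, mul_one]; exact gen_idem _
      · by_cases h' : j ∈ U
        · rw [dl_neg h, dl_pos h', mul_one, one_mul, mul_one]; exact (gen_idem _).symm
        · rw [dl_neg h, dl_neg h']
    | arrowL i j hn h1 h2 =>
      simp only [map_mul, FreeMonoid.lift_eval_of]
      by_cases h : i ∈ U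
      · by_cases h' : j ∈ U
        · rw [dl_pos h, dl_pos h']
          exact gen_L (fun t => hn (congrArg Subtype.val t)) h1 h2
        · rw [dl_neg h', dl_pos h, mul_one]; exact gen_idem _
      · rw [dl_neg h, mul_one]
    | arrowR i j hn h1 h2 =>
      simp only [map_mul, FreeMonoid.lift_eval_of]
      by_cases h : i ∈ U
      · by_cases h' : j ∈ U
        · rw [dl_pos h, dl_pos h']
          exact gen_R (fun t => hn (congrArg Subtype.val t)) h1 h2
        · rw [dl_neg h', mul_one, one_mul, mul_one]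
      · by_cases h' : j ∈ U
        · rw [dl_neg h, dl_pos h', mul_one, one_mul]; exact gen_idem _
        · rw [dl_neg h, dl_neg h', one_mul, one_mul])

theorem del_gen (T : V → V → Prop) (U : Set V) (i : V) : del T U (gen T i) = dl T U i :=
  PresentedMonoid.lift_of _ _

/-- the homomorphism given by the inclusion of `U` -/
noncomputable def inc (T : V → V → Prop) (U : Set V) : HK (sub T U) →* HK T :=
  PresentedMonoid.lift (rels := Rel (sub T U)) (fun a => gen T a.1) (by
    intro a b hab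
    cases hab with
    | idem i =>
      simp only [map_mul, FreeMonoid.lift_eval_of]
      exact gen_idem _
    | comm i j hn h1 h2 =>
      simp only [map_mul, FreeMonoid.lift_eval_of]
      exact gen_comm (fun t => hn (Subtype.ext t)) h1 h2
    | braid i j hn h1 h2 =>
      simp only [map_mul, FreeMonoid.lift_eval_of]
      exact rel_eq (Rel.braid _ _ (fun t => hn (Subtype.ext t)) h1 h2)
    | arrowL i j hn h1 h2 =>
      simp only [map_mul, FreeMonoid.lift_eval_of]
      exact gen_L (fun t => hn (Subtype.ext t)) h1 h2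
    | arrowR i j hn h1 h2 =>
      simp only [map_mul, FreeMonoid.lift_eval_of]
      exact gen_R (fun t => hn (Subtype.ext t)) h1 h2)

theorem inc_gen (T : V → V → Prop) (U : Set V) (a : U) : inc T U (gen (sub T U) a) = gen T a.1 :=
  PresentedMonoid.lift_of _ _

theorem gen_comm_inc {T : V → V → Prop} {U : Set V}
    (hs : ∀ i j, i ∈ U → j ∉ U → ¬ T i j ∧ ¬ T j i) {j : V} (hj : j ∉ U) (x : HK (sub T U)) :
    gen T j * inc T U x = inc T U x * gen T j := by
  obtain ⟨w, rfl⟩ := exists_wd x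
  induction w with
  | nil => rw [wd_nil, map_one, one_mul, mul_one]
  | cons a w ih =>
    have hc : gen T j * gen T a.1 = gen T a.1 * gen T j := by
      refine gen_comm ?_ (hs a.1 j a.2 hj).2 (hs a.1 j a.2 hj).1
      rintro rfl
      exact hj a.2
    rw [wd_cons, map_mul, inc_gen, ← mul_assoc, hc, mul_assoc, ih, mul_assoc]

theorem split_eq {T : V → V → Prop} {U : Set V}
    (hs : ∀ i j, i ∈ U → j ∉ U → ¬ T i j ∧ ¬ T j i) (g : HK T) :
    inc T U (del T U g) * inc T Uᶜ (del T Uᶜ g) = g := by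
  obtain ⟨w, rfl⟩ := exists_wd g
  induction w with
  | nil => rw [wd_nil, map_one, map_one, map_one, map_one, one_mul]
  | cons i w ih =>
    rw [wd_cons, map_mul, map_mul, map_mul, map_mul, del_gen, del_gen]
    by_cases h : i ∈ U
    · rw [dl_pos h, dl_neg (U := Uᶜ) (fun t => t h), inc_gen, map_one, one_mul, mul_assoc, ih]
    · rw [dl_neg h, dl_pos (U := Uᶜ) h, inc_gen, map_one, one_mul, ← mul_assoc,
        ← gen_comm_inc hs h, mul_assoc, ih]

theorem del_injective {T : V → V → Prop} {U : Set V}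
    (hs : ∀ i j, i ∈ U → j ∉ U → ¬ T i j ∧ ¬ T j i) {g h : HK T}
    (h1 : del T U g = del T U h) (h2 : del T Uᶜ g = del T Uᶜ h) : g = h := by
  rw [← split_eq hs g, ← split_eq hs h, h1, h2]

theorem linear_union {T : V → V → Prop} {U : Set V}
    (hs : ∀ i j, i ∈ U → j ∉ U → ¬ T i j ∧ ¬ T j i) {m n : ℕ}
    (φ : HK (sub T U) →ₙ* Matrix (Fin m) (Fin m) ℤ) (hφ : Function.Injective φ)
    (ψ : HK (sub T Uᶜ) →ₙ* Matrix (Fin n) (Fin n) ℤ) (hψ : Function.Injective ψ) :
    ∃ χ : HK T →ₙ* Matrix (Fin (m + n)) (Fin (m + n)) ℤ, Function.Injective χ := by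
  refine ⟨⟨fun g => Matrix.reindex finSumFinEquiv finSumFinEquiv
    (Matrix.fromBlocks (φ (del T U g)) 0 0 (ψ (del T Uᶜ g))), fun g h => ?_⟩, fun g h e => ?_⟩
  · have e : Matrix.fromBlocks (φ (del T U (g * h))) 0 0 (ψ (del T Uᶜ (g * h))) =
        Matrix.fromBlocks (φ (del T U g)) 0 0 (ψ (del T Uᶜ g)) *
          Matrix.fromBlocks (φ (del T U h)) 0 0 (ψ (del T Uᶜ h)) := by
      rw [Matrix.fromBlocks_multiply, map_mul, map_mul, map_mul, map_mul]
      simp
    simp only [Matrix.reindex_apply]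
    rw [e, Matrix.submatrix_mul_equiv]
  · have e1 := (Matrix.reindex finSumFinEquiv finSumFinEquiv).injective e
    obtain ⟨h1, -, -, h4⟩ := Matrix.fromBlocks_inj.1 e1
    exact del_injective hs (hφ h1) (hψ h4)

theorem deg_fin {R : Type} [Ring R] {T : V → V → Prop} (h : deg R T < ⊤) :
    ∃ n : ℕ, ∃ φ : HK T →ₙ* Matrix (Fin n) (Fin n) R, Function.Injective φ := by
  by_contra hc
  refine absurd h (not_lt.2 (le_sInf ?_))
  rintro d ⟨n, -, φ, hφ⟩
  exact absurd ⟨n, φ, hφ⟩ hc

/-- **The monoid is linear over `ℤ` if no vertex lies both on an unoriented edge and on an oriented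
edge.** -/
theorem linear_pure [Finite V] {T : V → V → Prop} (h0 : ∀ i, ¬ T i i)
    (h : ∀ i j k, T i j → T j i → (T i k ↔ T k i)) :
    ∃ n : ℕ, ∃ φ : HK T →ₙ* Matrix (Fin n) (Fin n) ℤ, Function.Injective φ := by
  have : Fintype V := Fintype.ofFinite V
  let U : Set V := {i | ∃ j, T i j ∧ T j i}
  have hs : ∀ i j, i ∈ U → j ∉ U → ¬ T i j ∧ ¬ T j i := by
    rintro i j ⟨k, h1, h2⟩ hj
    have h3 := h i k j h1 h2
    constructor
    · intro t
      exact hj ⟨i, h3.1 t, t⟩
    · intro t
      exact hj ⟨i, t, h3.2 t⟩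
  obtain ⟨m, φ, hφ⟩ : ∃ n : ℕ, ∃ φ : HK (sub T U) →ₙ* Matrix (Fin n) (Fin n) ℤ,
      Function.Injective φ := by
    have e : sub T U = (SimpleGraph.mk (fun a b : U => T a b)
        (⟨fun a b hab => by
          obtain ⟨k, h1, h2⟩ := a.2
          exact (h a.1 k b.1 h1 h2).1 hab⟩) (⟨fun a => h0 a.1⟩)).Adj := rfl
    rw [e]
    exact linear_of_graph _
  obtain ⟨n, ψ, hψ⟩ : ∃ n : ℕ, ∃ φ : HK (sub T Uᶜ) →ₙ* Matrix (Fin n) (Fin n) ℤ,
      Function.Injective φ := by
    refine deg_fin ((Pool.Agent.H68.HKO.deg_le ?_).trans_lt (ENat.natCast_lt_top _))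
    intro a b h1 h2
    exact a.2 ⟨b.1, h1, h2⟩
  obtain ⟨χ, hχ⟩ := linear_union hs φ hφ ψ hψ
  exact ⟨m + n, χ, hχ⟩

theorem pure_deg [Finite V] {T : V → V → Prop} (h0 : ∀ i, ¬ T i i)
    (h : ∀ i j k, T i j → T j i → (T i k ↔ T k i)) : deg ℤ T < ⊤ ∧ deg ℂ T < ⊤ := by
  obtain ⟨n, φ, hφ⟩ := linear_pure h0 h
  exact ⟨deg_lt_top φ hφ, deg_lt_top (toC' φ) (toC'_injective hφ)⟩

end Pool.Agent.H83.HK
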