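import Pool.Agent.H83.HK.Idx

set_option autoImplicit false
set_option linter.dupNamespace false

/-!
# The root lattice of a simply laced Coxeter matrix
-/

namespace Pool.Agent.H83.HK

open Pool.Agent.H3.HK
open scoped Classical

variable {V : Type} [Fintype V] {M : CoxeterMatrix V}

/-- the pairing of weights and roots -/
def pair (x b : V → ℤ) : ℤ := ∑ i, x i * b i

/-- the Cartan map: `ca M b i` is the scalar product of `b` with the simple root `i` -/
noncomputable def ca (M : CoxeterMatrix V) (b : V → ℤ) : V → ℤ :=
  fun i => 2 * b i - ∑ k, if (gr M).Adj i k then b k else 0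

/-- the simple reflection on the root lattice -/
noncomputable def rR (M : CoxeterMatrix V) (j : V) (b : V → ℤ) : V → ℤ :=
  fun i => b i - ca M b j * om j i

/-- small roots -/
inductive Sm (M : CoxeterMatrix V) : (V → ℤ) → Prop
  | simple (j : V) : Sm M (om j)
  | step (b : V → ℤ) (j : V) : Sm M b → ca M b j = -1 → Sm M (b + om j)

/-- the root `w⁻¹ α_j`: row `j` of the matrix of `w` -/
noncomputable def root (hM : SL M) (w : M.Group) (j : V) : V → ℤ := fun i => linW hM w (om i) j

/-! ### linearity -/

theorem om_self (j : V) : om j j = 1 := by simp [om]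

theorem sum_om (x : V → ℤ) (j : V) : ∑ i, x i * om j i = x j := by
  rw [Finset.sum_eq_single j]
  · rw [om_self, mul_one]
  · intro b _ hb; rw [om_of_ne hb, mul_zero]
  · intro h; exact absurd (Finset.mem_univ j) h

theorem pair_om (x : V → ℤ) (j : V) : pair x (om j) = x j := sum_om x j

theorem om_pair (b : V → ℤ) (i : V) : pair (om i) b = b i := by
  rw [pair, Finset.sum_congr rfl fun k _ => mul_comm (om i k) (b k)]
  exact sum_om b i

theorem pair_add (x b c : V → ℤ) : pair x (b + c) = pair x b + pair x c := by
  simp only [pair, Pi.add_apply, mul_add, Finset.sum_add_distrib]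

theorem pair_smul (x b : V → ℤ) (c : ℤ) : pair x (c • b) = c * pair x b := by
  simp only [pair, Pi.smul_apply, smul_eq_mul, Finset.mul_sum]
  exact Finset.sum_congr rfl fun i _ => by ring

theorem pair_neg (x b : V → ℤ) : pair x (-b) = - pair x b := by
  simp only [pair, Pi.neg_apply, mul_neg, Finset.sum_neg_distrib]

theorem pair_sub (x b c : V → ℤ) : pair x (b - c) = pair x b - pair x c := by
  rw [sub_eq_add_neg, pair_add, pair_neg]; ring

theorem add_pair (x y b : V → ℤ) : pair (x + y) b = pair x b + pair y b := by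
  simp only [pair, Pi.add_apply, add_mul, Finset.sum_add_distrib]

theorem smul_pair (x b : V → ℤ) (c : ℤ) : pair (c • x) b = c * pair x b := by
  simp only [pair, Pi.smul_apply, smul_eq_mul, Finset.mul_sum]
  exact Finset.sum_congr rfl fun i _ => by ring

theorem neg_pair (x b : V → ℤ) : pair (-x) b = - pair x b := by
  simp only [pair, Pi.neg_apply, neg_mul, Finset.sum_neg_distrib]

theorem ca_add (b c : V → ℤ) : ca M (b + c) = ca M b + ca M c := by
  funext i
  simp only [ca, Pi.add_apply]
  have : ∑ k, (if (gr M).Adj i k then b k + c k else 0) =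
      (∑ k, if (gr M).Adj i k then b k else 0) + ∑ k, if (gr M).Adj i k then c k else 0 := by
    rw [← Finset.sum_add_distrib]
    exact Finset.sum_congr rfl fun k _ => by split_ifs <;> simp
  rw [this]; ring

theorem ca_smul (b : V → ℤ) (c : ℤ) : ca M (c • b) = c • ca M b := by
  funext i
  simp only [ca, Pi.smul_apply, smul_eq_mul]
  have : ∑ k, (if (gr M).Adj i k then c * b k else 0) =
      c * ∑ k, if (gr M).Adj i k then b k else 0 := by
    rw [Finset.mul_sum]
    exact Finset.sum_congr rfl fun k _ => by split_ifs <;> simp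
  rw [this]; ring

theorem ca_neg (b : V → ℤ) : ca M (-b) = - ca M b := by
  have := ca_smul (M := M) b (-1)
  simpa using this

theorem ca_sub (b c : V → ℤ) : ca M (b - c) = ca M b - ca M c := by
  rw [sub_eq_add_neg, ca_add, ca_neg, sub_eq_add_neg]

theorem ca_om_self (j : V) : ca M (om j) j = 2 := by
  have : ∑ k, (if (gr M).Adj j k then om j k else 0) = 0 := by
    refine Finset.sum_eq_zero fun k _ => ?_
    split_ifs with h
    · exact om_of_ne h.ne'
    · rfl
  rw [ca, this, om_self]; norm_num

theorem ca_om_adj {j k : V} (h : (gr M).Adj j k) : ca M (om j) k = -1 := by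
  have : ∑ m, (if (gr M).Adj k m then om j m else 0) = 1 := by
    rw [Finset.sum_eq_single j]
    · rw [if_pos h.symm, om_self]
    · intro m _ hm
      split_ifs
      · exact om_of_ne hm
      · rfl
    · intro hh; exact absurd (Finset.mem_univ j) hh
  rw [ca, this, om_of_ne h.ne']; norm_num

theorem ca_om_not {j k : V} (hn : k ≠ j) (h : ¬ (gr M).Adj j k) : ca M (om j) k = 0 := by
  have : ∑ m, (if (gr M).Adj k m then om j m else 0) = 0 := by
    refine Finset.sum_eq_zero fun m _ => ?_
    split_ifs with h1
    · refine om_of_ne ?_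
      rintro rfl
      exact h h1.symm
    · rfl
  rw [ca, this, om_of_ne hn]; norm_num

theorem rfl_eq (j : V) (x : V → ℤ) : rfl' (gr M) j x = x - x j • ca M (om j) := by
  funext k
  rw [Pi.sub_apply, Pi.smul_apply, smul_eq_mul]
  by_cases h : k = j
  · subst h; rw [rfl_self, ca_om_self]; ring
  · by_cases h' : (gr M).Adj j k
    · rw [rfl_adj h', ca_om_adj h']; ring
    · rw [rfl_not h h', ca_om_not h h']; ring

theorem rR_eq (j : V) (b : V → ℤ) : rR M j b = b - ca M b j • om j := by
  funext k
  rw [rR, Pi.sub_apply, Pi.smul_apply, smul_eq_mul]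

theorem pair_symm (b c : V → ℤ) : pair (ca M b) c = pair (ca M c) b := by
  simp only [pair, ca, sub_mul, Finset.sum_sub_distrib, Finset.sum_mul]
  congr 1
  · exact Finset.sum_congr rfl fun i _ => by ring
  · rw [Finset.sum_comm]
    refine Finset.sum_congr rfl fun i _ => Finset.sum_congr rfl fun k _ => ?_
    by_cases h : (gr M).Adj k i
    · rw [if_pos h, if_pos h.symm]; ring
    · rw [if_neg h, if_neg (fun t => h t.symm)]; ring

theorem ca_rR (j : V) (b : V → ℤ) : ca M (rR M j b) = rfl' (gr M) j (ca M b) := by
  rw [rR_eq, ca_sub, ca_smul, rfl_eq]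

theorem pair_rfl (j : V) (x b : V → ℤ) : pair (rfl' (gr M) j x) (rR M j b) = pair x b := by
  rw [rfl_eq, rR_eq, sub_eq_add_neg, add_pair, neg_pair, smul_pair, pair_sub, pair_sub, pair_smul,
    pair_smul, pair_om, pair_om, ca_om_self, pair_symm (om j) b, pair_om]
  ring

theorem rR_rR (j : V) (b : V → ℤ) : rR M j (rR M j b) = b := by
  have h : ca M (rR M j b) j = - ca M b j := by rw [ca_rR, rfl_self]
  rw [rR_eq, h, rR_eq]
  funext k
  simp only [Pi.sub_apply, Pi.smul_apply, smul_eq_mul]
  ring

theorem pair_rfl' (j : V) (x b : V → ℤ) : pair (rfl' (gr M) j x) b = pair x (rR M j b) := by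
  conv_lhs => rw [← rR_rR (M := M) j b]
  rw [pair_rfl]

theorem norm_rR (j : V) (b c : V → ℤ) : pair (ca M (rR M j b)) (rR M j c) = pair (ca M b) c := by
  rw [ca_rR, pair_rfl]

theorem rR_om (j : V) : rR M j (om j) = - om j := by
  rw [rR_eq, ca_om_self]
  funext k
  simp only [Pi.sub_apply, Pi.smul_apply, Pi.neg_apply, smul_eq_mul]
  ring

theorem rR_neg (j : V) (b : V → ℤ) : rR M j (-b) = - rR M j b := by
  rw [rR_eq, rR_eq, ca_neg]
  funext k
  simp only [Pi.sub_apply, Pi.smul_apply, Pi.neg_apply, smul_eq_mul]
  ring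

/-! ### roots -/

theorem rfl_add (k : V) (x y : V → ℤ) : rfl' (gr M) k (x + y) =
    rfl' (gr M) k x + rfl' (gr M) k y := by
  funext m
  by_cases h : m = k
  · subst h; simp [rfl']; ring
  · by_cases h' : (gr M).Adj k m
    · simp [rfl', h, h']; ring
    · simp [rfl', h, h']

theorem rfl_smul (k : V) (c : ℤ) (x : V → ℤ) : rfl' (gr M) k (c • x) = c • rfl' (gr M) k x := by
  funext m
  by_cases h : m = k
  · subst h; simp [rfl']
  · by_cases h' : (gr M).Adj k m
    · simp [rfl', h, h']; ring
    · simp [rfl', h, h']

theorem linW_add (hM : SL M) (w : M.Group) (x y : V → ℤ) :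
    linW hM w (x + y) = linW hM w x + linW hM w y := by
  refine W_induction (p := fun w => linW hM w (x + y) = linW hM w x + linW hM w y) w ?_ ?_
  · rw [map_one]; rfl
  · intro w k ih
    rw [linW_mul_simple, linW_mul_simple, linW_mul_simple, ih, rfl_add]

theorem linW_smul (hM : SL M) (w : M.Group) (c : ℤ) (x : V → ℤ) :
    linW hM w (c • x) = c • linW hM w x := by
  refine W_induction (p := fun w => linW hM w (c • x) = c • linW hM w x) w ?_ ?_
  · rw [map_one]; rfl
  · intro w k ih
    rw [linW_mul_simple, linW_mul_simple, ih, rfl_smul]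

theorem linW_mul (hM : SL M) (v w : M.Group) (x : V → ℤ) :
    linW hM (v * w) x = linW hM v (linW hM w x) := by
  rw [map_mul]; rfl

theorem pair_root (hM : SL M) (w : M.Group) (j : V) (x : V → ℤ) :
    pair x (root hM w j) = linW hM w x j := by
  have h : ∀ (s : Finset V), linW hM w (∑ i ∈ s, x i • om i) j =
      ∑ i ∈ s, x i * linW hM w (om i) j := by
    intro s
    induction s using Finset.induction_on with
    | empty =>
      rw [Finset.sum_empty, Finset.sum_empty]
      have := linW_smul hM w 0 0
      rw [zero_smul, zero_smul] at this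
      rw [this]; rfl
    | insert a s ha ih =>
      rw [Finset.sum_insert ha, Finset.sum_insert ha, linW_add, linW_smul, Pi.add_apply,
        Pi.smul_apply, smul_eq_mul, ih]
  have e : x = ∑ i, x i • om i := by
    funext k
    rw [Finset.sum_apply, Finset.sum_eq_single k]
    · simp [om]
    · intro b _ hb
      rw [Pi.smul_apply, om_of_ne (fun t => hb t.symm), smul_zero]
    · intro hh; exact absurd (Finset.mem_univ k) hh
  conv_rhs => rw [e]
  rw [h]
  rfl

theorem root_one (hM : SL M) (j : V) : root hM 1 j = om j := by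
  funext i
  rw [root, map_one]
  change om i j = om j i
  simp only [om, eq_comm]

theorem root_mul_simple (hM : SL M) (w : M.Group) (j k : V) :
    root hM (w * M.simple k) j = rR M k (root hM w j) := by
  funext i
  have h1 : root hM (w * M.simple k) j i = linW hM w (rfl' (gr M) k (om i)) j := by
    rw [root, linW_mul, linW_simple]; rfl
  rw [h1, ← pair_root, pair_rfl', om_pair]

theorem pair_root_root (hM : SL M) (v w : M.Group) (i j : V) :
    pair (linW hM w (om i)) (root hM v j) = root hM (v * w) j i := by
  rw [pair_root, root, linW_mul]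

/-- every root is nonnegative or nonpositive, and not zero -/
theorem root_sign (hM : SL M) (w : M.Group) (j : V) :
    ((∀ i, 0 ≤ root hM w j i) ∧ ∃ i, 0 < root hM w j i) ∨
      ((∀ i, root hM w j i ≤ 0) ∧ ∃ i, root hM w j i < 0) := by
  obtain ⟨l, hr, rfl⟩ := exists_redW hM w
  have h : ∀ i, root hM (l.map M.simple).prod j i = col (gr M) l i j := fun i => by
    rw [root, ← col_linW]
  simp only [h]
  exact pos_or_neg (good hM) hr j

theorem W_induction_right {p : M.Group → Prop} (w : M.Group) (one : p 1)
    (mul : ∀ w k, p w → p (w * M.simple k)) : p w :=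
  M.toCoxeterSystem.simple_induction_right w one mul

theorem root_norm (hM : SL M) (w : M.Group) (j : V) :
    pair (ca M (root hM w j)) (root hM w j) = 2 := by
  refine W_induction_right (p := fun w => pair (ca M (root hM w j)) (root hM w j) = 2) w ?_ ?_
  · simp only [root_one]
    rw [pair_om, ca_om_self]
  · intro w k ih
    rw [root_mul_simple, norm_rR, ih]

end Pool.Agent.H83.HK
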