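import Pool.Agent.H83.HK.UL.RL

set_option autoImplicit false
set_option linter.dupNamespace false

/-!
# SE: the small roots of a simply laced Coxeter matrix are finite in number

(1) `Sm_le`: for a small root `b ≠ α_j`: `⟨b, α_j⟩ ≤ 1`, and `b - α_j` is small if `= 1`.
(2) `SE_two`: `⟨b, c⟩ ≤ 1` for small roots `b ≠ c` (induction on `b`).
(3) `Sm_finite`: otherwise there is an infinite chain `x (k+1) = x k + α_(i k)`; for the letters
used infinitely often the scalar products are in `{-1, 0, 1}`, so two members of the chain have the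
same ones, and their difference has norm `0`, against (2).
-/

namespace Pool.Agent.H83.HK

open Pool.Agent.H3.HK
open scoped Classical

variable {V : Type} [Fintype V] {M : CoxeterMatrix V}

/-- step (1) -/
theorem Sm_le {b : V → ℤ} (h : Sm M b) (j : V) :
    b = om j ∨ (ca M b j ≤ 1 ∧ (ca M b j = 1 → Sm M (b - om j))) := by
  induction h generalizing j with
  | simple i =>
    by_cases hij : i = j
    · exact Or.inl (by rw [hij])
    · refine Or.inr ?_
      by_cases h : (gr M).Adj i j
      · rw [ca_om_adj h]
        omega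
      · rw [ca_om_not (fun t => hij t.symm) h]
        omega
  | step y i hy hyi ih =>
    refine Or.inr ?_
    rw [ca_add, Pi.add_apply]
    by_cases hij : i = j
    · subst hij
      rw [ca_om_self, hyi]
      refine ⟨by norm_num, fun _ => ?_⟩
      rw [add_sub_cancel_right]
      exact hy
    · by_cases h : (gr M).Adj i j
      · rw [ca_om_adj h]
        rcases ih j with rfl | h1
        · rw [ca_om_self]
          refine ⟨by norm_num, fun _ => ?_⟩
          rw [add_sub_cancel_left]
          exact Sm.simple i
        · omega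
      · rw [ca_om_not (fun t => hij t.symm) h, add_zero]
        rcases ih j with rfl | ⟨h1, h2⟩
        · rw [ca_om_not hij (fun t => h t.symm)] at hyi
          omega
        · refine ⟨h1, fun h3 => ?_⟩
          have h4 : y + om i - om j = (y - om j) + om i := by abel
          rw [h4]
          refine Sm.step _ _ (h2 h3) ?_
          rw [ca_sub, Pi.sub_apply, hyi, ca_om_not hij (fun t => h t.symm)]
          norm_num

theorem SE_le {b : V → ℤ} (h : Sm M b) {j : V} (hj : b ≠ om j) :
    ca M b j ≤ 1 ∧ (ca M b j = 1 → Sm M (b - om j)) :=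
  (Sm_le h j).resolve_left hj

theorem SE_norm {b : V → ℤ} (h : Sm M b) : pair (ca M b) b = 2 := by
  induction h with
  | simple i => rw [pair_om, ca_om_self]
  | step y i hy hyi ih =>
    rw [ca_add, pair_add, add_pair, add_pair, ih, pair_om, pair_om, ca_om_self,
      pair_symm (om i) y, pair_om, hyi]
    norm_num

/-- step (2) -/
theorem SE_two {x : V → ℤ} (hx : Sm M x) {y : V → ℤ} (hy : Sm M y) (hxy : x ≠ y) :
    pair (ca M x) y ≤ 1 := by
  induction hx generalizing y with
  | simple i =>
    rw [pair_symm, pair_om]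
    exact (SE_le hy fun h => hxy h.symm).1
  | step z i hz hzi ih =>
    rw [ca_add, add_pair, pair_symm (om i) y, pair_om]
    by_cases hyi : y = om i
    · subst hyi
      rw [pair_om, hzi, ca_om_self]
      norm_num
    · obtain ⟨h1, h2⟩ := SE_le hy hyi
      rcases lt_trichotomy (ca M y i) (-1) with h | h | h
      · have hne : z ≠ y := by
          rintro rfl
          omega
        have := ih hy hne
        omega
      · have h3 : z ≠ y + om i := by
          rintro rfl
          rw [ca_add, Pi.add_apply, ca_om_self] at hzi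
          omega
        have h4 := ih (Sm.step y i hy h) h3
        rw [pair_add, pair_om] at h4
        omega
      · by_cases h0 : ca M y i = 0
        · rw [h0, add_zero]
          refine ih hy ?_
          rintro rfl
          omega
        · have h5 : ca M y i = 1 := by omega
          have h3 : z ≠ y - om i := by
            rintro rfl
            exact hxy (by rw [sub_add_cancel])
          have h4 := ih (h2 h5) h3
          rw [pair_sub, pair_om] at h4
          omega

theorem Sm_nonneg {b : V → ℤ} (h : Sm M b) (i : V) : 0 ≤ b i := by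
  have ho : ∀ j : V, 0 ≤ om j i := by
    intro j
    unfold om
    split_ifs
    · exact zero_le_one
    · exact le_rfl
  induction h with
  | simple j => exact ho j
  | step y j hy hyj ih => exact add_nonneg ih (ho j)

theorem Sm_ne {b : V → ℤ} (h : Sm M b) : b ≠ 0 := by
  rintro rfl
  have h1 := SE_norm h
  have h2 : pair (ca M (0 : V → ℤ)) 0 = 0 := by
    unfold pair
    exact Finset.sum_eq_zero fun i _ => by rw [Pi.zero_apply, mul_zero]
  omega

theorem Sm_root (hM : SL M) {b : V → ℤ} (h : Sm M b) : ∃ w j, b = root hM w j := by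
  induction h with
  | simple j => exact ⟨1, j, (root_one hM j).symm⟩
  | step y i hy hyi ih =>
    obtain ⟨w, j, rfl⟩ := ih
    refine ⟨w * M.simple i, j, ?_⟩
    rw [root_mul_simple, rR_eq, hyi, neg_one_smul, sub_neg_eq_add]

/-- the small roots are closed under the simple reflections, with two exceptions -/
theorem Sm_refl {b : V → ℤ} (h : Sm M b) {j : V} (hj : b ≠ om j) (h1 : -1 ≤ ca M b j) :
    Sm M (rR M j b) := by
  obtain ⟨h2, h3⟩ := SE_le h hj
  rw [rR_eq]
  rcases lt_trichotomy (ca M b j) 0 with h4 | h4 | h4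
  · have h5 : ca M b j = -1 := by omega
    rw [h5, neg_one_smul, sub_neg_eq_add]
    exact Sm.step b j h h5
  · rw [h4, zero_smul, sub_zero]
    exact h
  · have h5 : ca M b j = 1 := by omega
    rw [h5, one_smul]
    exact h3 h5

/-! ### step (3) -/

/-- the height -/
private def SE_ht (x : V → ℤ) : ℤ := ∑ j, x j

private theorem SE_ht_add (x y : V → ℤ) : SE_ht (x + y) = SE_ht x + SE_ht y := by
  unfold SE_ht
  rw [← Finset.sum_add_distrib]
  rfl

private theorem SE_ht_om (j : V) : SE_ht (om j) = 1 := by
  unfold SE_ht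
  rw [Finset.sum_eq_single j]
  · exact om_self j
  · intro k _ hk
    exact om_of_ne hk
  · intro h1
    exact absurd (Finset.mem_univ _) h1

private theorem SE_ht_pos {x : V → ℤ} (hx : Sm M x) : 1 ≤ SE_ht x := by
  induction hx with
  | simple i => rw [SE_ht_om]
  | step y i hy hyi ih => rw [SE_ht_add, SE_ht_om]; omega

/-- no infinite chain -/
theorem SE_no_chain (x : ℕ → V → ℤ) (i : ℕ → V) (hE : ∀ k, Sm M (x k))
    (hc : ∀ k, ca M (x k) (i k) = -1) (hs : ∀ k, x (k + 1) = x k + om (i k)) : False := by
  have hht : ∀ k : ℕ, SE_ht (x k) = SE_ht (x 0) + k := by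
    intro k
    induction k with
    | zero => simp
    | succ k ih => rw [hs, SE_ht_add, SE_ht_om, ih]; push_cast; ring
  -- between two uses of `s` the value at `s` only decreases
  have hdec : ∀ k s, i k ≠ s → ca M (x (k + 1)) s ≤ ca M (x k) s := by
    intro k s h
    rw [hs, ca_add, Pi.add_apply]
    by_cases h1 : (gr M).Adj (i k) s
    · rw [ca_om_adj h1]; omega
    · rw [ca_om_not (fun t => h t.symm) h1]; omega
  have hlow : ∀ s, (∃ᶠ k in Filter.atTop, i k = s) → ∀ k, -1 ≤ ca M (x k) s := by
    intro s hs' k
    obtain ⟨m, hm, hms⟩ := (Filter.frequently_atTop.1 hs') k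
    have h1 : ∀ d k, i (k + d) = s → -1 ≤ ca M (x k) s := by
      intro d
      induction d with
      | zero =>
        intro k hk
        rw [add_zero] at hk
        rw [← hk, hc]
      | succ d ih =>
        intro k hk
        by_cases h2 : i k = s
        · rw [← h2, hc]
        · refine (ih (k + 1) ?_).trans (hdec k s h2)
          rw [← hk]
          congr 1
          omega
    refine h1 (m - k) k ?_
    rw [← hms]
    congr 1
    omega
  have hup : ∀ s k, ca M (x (k + 1)) s ≤ 1 := by
    intro s k
    refine (SE_le (hE (k + 1)) fun h => ?_).1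
    have h1 := hht (k + 1)
    rw [h, SE_ht_om] at h1
    have h2 := SE_ht_pos (hE 0)
    push_cast at h1
    omega
  -- late on only the letters used infinitely often are used
  have hev : ∀ᶠ k in Filter.atTop, ∀ s, (¬ ∃ᶠ m in Filter.atTop, i m = s) → i k ≠ s := by
    refine Filter.eventually_all.2 fun s => ?_
    by_cases h : ∃ᶠ m in Filter.atTop, i m = s
    · exact Filter.Eventually.of_forall fun k h' => absurd h h'
    · exact (Filter.not_frequently.1 h).mono fun k hk _ => hk
  obtain ⟨K, hK⟩ := Filter.eventually_atTop.1 hev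
  -- pigeonhole
  let f : ℕ → (V → Set.Icc (-1 : ℤ) 1) := fun k s =>
    if h : ∃ᶠ m in Filter.atTop, i m = s then
      ⟨ca M (x (K + k + 1)) s, hlow s h _, hup s _⟩ else ⟨0, by simp⟩
  obtain ⟨k, l, hkl, hf⟩ : ∃ k l, k < l ∧ f k = f l := by
    obtain ⟨k, l, hkl, hf⟩ := Finite.exists_ne_map_eq_of_infinite f
    rcases lt_or_gt_of_ne hkl with h | h
    · exact ⟨k, l, h, hf⟩
    · exact ⟨l, k, h, hf.symm⟩
  have hS : ∀ s, (∃ᶠ m in Filter.atTop, i m = s) →
      ca M (x (K + k + 1)) s = ca M (x (K + l + 1)) s := by
    intro s h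
    have h1 := congrArg Subtype.val (congrFun hf s)
    simpa only [f, dif_pos h] using h1
  have hN : ∀ s, (¬ ∃ᶠ m in Filter.atTop, i m = s) →
      x (K + k + 1) s = x (K + l + 1) s := by
    intro s h
    have h1 : ∀ d, x (K + d) s = x K s := by
      intro d
      induction d with
      | zero => rfl
      | succ d ih =>
        rw [← add_assoc, hs, Pi.add_apply, om_of_ne (hK (K + d) (by omega) s h).symm, add_zero, ih]
    rw [add_assoc, add_assoc, h1, h1]
  have h0 : pair (ca M (x (K + l + 1) - x (K + k + 1))) (x (K + l + 1) - x (K + k + 1)) = 0 := by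
    unfold pair
    refine Finset.sum_eq_zero fun s _ => ?_
    by_cases h : ∃ᶠ m in Filter.atTop, i m = s
    · rw [ca_sub, Pi.sub_apply, hS s h, sub_self, zero_mul]
    · rw [Pi.sub_apply (x (K + l + 1)), hN s h, sub_self, mul_zero]
  have h3 : pair (ca M (x (K + l + 1)) - ca M (x (K + k + 1)))
      (x (K + l + 1) - x (K + k + 1)) =
      pair (ca M (x (K + l + 1))) (x (K + l + 1)) - 2 * pair (ca M (x (K + l + 1))) (x (K + k + 1))
        + pair (ca M (x (K + k + 1))) (x (K + k + 1)) := by
    rw [sub_eq_add_neg (ca M (x (K + l + 1))), add_pair, neg_pair, pair_sub, pair_sub,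
      pair_symm (x (K + k + 1)) (x (K + l + 1))]
    ring
  rw [ca_sub, h3, SE_norm (hE _), SE_norm (hE _)] at h0
  have hne : x (K + l + 1) ≠ x (K + k + 1) := by
    intro h
    have h1 := hht (K + l + 1)
    rw [h, hht] at h1
    push_cast at h1
    omega
  have h2 := SE_two (hE (K + l + 1)) (hE (K + k + 1)) hne
  omega

/-- one step -/
private def SE_stp (M : CoxeterMatrix V) (x y : V → ℤ) : Prop :=
  ∃ j, ca M x j = -1 ∧ y = x + om j

private theorem SE_reach {x : V → ℤ} (hx : Sm M x) :
    ∃ j, Relation.ReflTransGen (SE_stp M) (om j) x := by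
  induction hx with
  | simple j => exact ⟨j, .refl⟩
  | step y i hy hyi ih =>
    obtain ⟨j, hj⟩ := ih
    exact ⟨j, hj.tail ⟨i, hyi, rfl⟩⟩

/-- step (3) -/
theorem Sm_finite (M : CoxeterMatrix V) : {b | Sm M b}.Finite := by
  by_contra hinf
  let D : (V → ℤ) → Set (V → ℤ) := fun x => {y | Relation.ReflTransGen (SE_stp M) x y}
  have h0 : ∃ j : V, (D (om j)).Infinite := by
    by_contra h
    push Not at h
    refine hinf (Set.Finite.subset (Set.finite_iUnion fun j => h j) ?_)
    intro x hx
    obtain ⟨j, hj⟩ := SE_reach hx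
    exact Set.mem_iUnion.2 ⟨j, hj⟩
  obtain ⟨j₀, h0⟩ := h0
  have h1 : ∀ b : {x : V → ℤ // Sm M x ∧ (D x).Infinite},
      ∃ (b' : {x : V → ℤ // Sm M x ∧ (D x).Infinite}) (j : V),
        ca M b.1 j = -1 ∧ b'.1 = b.1 + om j := by
    rintro ⟨x, hx, hD⟩
    by_contra h
    push Not at h
    refine hD (Set.Finite.subset ((Set.finite_singleton x).union (Set.finite_iUnion
      (fun j : V => (?_ : (if ca M x j = -1 then D (x + om j) else ∅).Finite)))) ?_)
    · split_ifs with hj
      · by_contra h2
        exact h ⟨x + om j, Sm.step x j hx hj, h2⟩ j hj rfl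
      · exact Set.finite_empty
    · intro y hy
      rcases Relation.ReflTransGen.cases_head hy with h2 | ⟨z, ⟨j, hj, hz⟩, hzy⟩
      · exact Or.inl h2.symm
      · refine Or.inr (Set.mem_iUnion.2 ⟨j, ?_⟩)
        rw [if_pos hj, ← hz]
        exact hzy
  choose g i hi hg using h1
  let b : ℕ → {x : V → ℤ // Sm M x ∧ (D x).Infinite} := fun k => g^[k] ⟨om j₀, Sm.simple j₀, h0⟩
  refine SE_no_chain (fun k => (b k).1) (fun k => i (b k)) (fun k => (b k).2.1)
    (fun k => hi (b k)) fun k => ?_
  have h2 : b (k + 1) = g (b k) := Function.iterate_succ_apply' _ _ _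
  show (b (k + 1)).1 = _
  rw [h2]
  exact hg (b k)

end Pool.Agent.H83.HK
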